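import Pool.Agent.H71.HV.Targets2

/-!
# HV module LOC: robust labels determine `φ` locally
-/

set_option autoImplicit false

open Set Topology TopologicalSpace Filter

namespace Pool.Agent.H16.HV

open Pool.Agent.H71.HV

universe u v

theorem LOC : LocStmt.{u, v} := by
  intro G Y _ _ _ _ _ hR C J _ Δ D ξ hD hup hdown π
  obtain ⟨hr1, hr, hs, he⟩ := hD
  have hr1' : (0 : ℝ) < D.r1 := by exact_mod_cast hr1
  have hr' : (D.r1 : ℝ) < D.r := by exact_mod_cast hr
  have hs' : (0 : ℝ) < D.s := by exact_mod_cast hs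
  have he' : (0 : ℝ) < D.e := by exact_mod_cast he
  set δ : ℝ := ((D.r : ℝ) - D.r1) / 4 with hδ
  have hδ0 : 0 < δ := by rw [hδ]; linarith
  set δ' : ℝ := (D.e : ℝ) / 8 with hδ'
  have hδ0' : 0 < δ' := by rw [hδ']; linarith
  obtain ⟨l, hl⟩ := C.dense_cen.exists_dist_lt (C.cen D.i * π⁻¹) hδ0
  obtain ⟨l', hl'⟩ := C.dense_cen.exists_dist_lt (C.cen D.j * π⁻¹) hδ0'
  have key : ∀ a b : G, dist (a * π⁻¹) b = dist (b * π) a := by
    intro a b
    rw [← hR (a * π⁻¹) b π, inv_mul_cancel_right, dist_comm]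
  rw [key] at hl hl'
  set t : ℚ := (D.r1 + D.r) / 2 with ht
  set t' : ℚ := D.s + 3 * D.e / 4 with ht'
  have ht0 : 0 < t := by rw [ht]; linarith
  have ht0' : 0 < t' := by rw [ht']; linarith
  have htr : (t : ℝ) = ((D.r1 : ℝ) + D.r) / 2 := by rw [ht]; push_cast; ring
  have htr' : (t' : ℝ) = (D.s : ℝ) + 3 * D.e / 4 := by rw [ht']; push_cast; ring
  refine ⟨C.bt l t, C.bt l' t', {p | dist (C.cen l * p) (C.cen D.i) < δ} ∩
    {p | dist (C.cen l' * p) (C.cen D.j) < δ'}, ?_, ⟨hl, hl'⟩, ?_⟩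
  · refine IsOpen.inter ?_ ?_
    · exact isOpen_lt ((continuous_const_mul _).dist continuous_const) continuous_const
    · exact isOpen_lt ((continuous_const_mul _).dist continuous_const) continuous_const
  · rintro p ⟨hp, hp'⟩ φ ⟨hphi1, hphi2⟩
    simp only [mem_ofPred_eq] at hp hp'
    apply le_antisymm
    · refine (hphi2 D.i l D.j l' D.r1 t (D.s + D.e) t' hr1 ht0 (by linarith) ht0' ?_ ?_).trans hdown
      · rw [htr]; linarith
      · rw [htr']; push_cast; linarith
    · have he2 : 0 < D.e / 2 := by linarith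
      refine (hup (D.e / 2) he2).trans
        (hphi1 D.i l D.j l' D.r t (D.s + D.e / 2) t' (by linarith) ht0 (by linarith) ht0' ?_ ?_)
      · rw [htr]; linarith
      · rw [htr']; push_cast; linarith

end Pool.Agent.H16.HV
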