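import Pool.Agent.H71.HV.Targets2

/-!
# HV module PHI: interpolation of balls
-/

set_option autoImplicit false

open Set Topology TopologicalSpace Filter

namespace Pool.Agent.H16.HV

open Pool.Agent.H71.HV

universe u v

/-- interpolation of a ball between two (right) translated balls -/
theorem interp {G : Type u} [Group G] [MetricSpace G] (hR : RInv G) (F : Frame G)
    (i j : ℕ) (r s : ℚ) (hr : 0 < r) (hs : 0 < s) (a b : G)
    (h : dist (F.cen i * a) (F.cen j * b) + (r : ℝ) < s) :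
    ∃ Z, (∀ v ∈ F.B (F.bt i r), v * a ∈ F.B Z) ∧ ∀ v ∈ F.B Z, v * b⁻¹ ∈ F.B (F.bt j s) := by
  set d := dist (F.cen i * a) (F.cen j * b) with hd
  set δ : ℝ := (s - r - d) / 4 with hδ
  have hδ0 : 0 < δ := by rw [hδ]; linarith
  obtain ⟨l, hl⟩ := F.dense_cen.exists_dist_lt (F.cen i * a) hδ0
  obtain ⟨t, ht1, ht2⟩ := exists_rat_btwn (show (r : ℝ) + δ < s - d - δ by rw [hδ]; linarith)
  have hr' : (0 : ℝ) < r := by exact_mod_cast hr
  have ht0 : (0 : ℝ) < t := by linarith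
  have ht : 0 < t := by exact_mod_cast ht0
  refine ⟨F.bt l t, ?_, ?_⟩
  · intro v hv
    rw [F.B_bt i r hr, Metric.mem_ball] at hv
    rw [F.B_bt l t ht, Metric.mem_ball]
    have e1 : dist (v * a) (F.cen i * a) = dist v (F.cen i) := hR _ _ _
    have e2 := dist_triangle (v * a) (F.cen i * a) (F.cen l)
    linarith
  · intro v hv
    rw [F.B_bt l t ht, Metric.mem_ball] at hv
    rw [F.B_bt j s hs, Metric.mem_ball]
    have e1 : dist (v * b⁻¹) (F.cen j) = dist v (F.cen j * b) := by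
      rw [← hR (v * b⁻¹) (F.cen j) b, inv_mul_cancel_right]
    have e2 := dist_triangle4 v (F.cen l) (F.cen i * a) (F.cen j * b)
    rw [dist_comm (F.cen l) (F.cen i * a)] at e2
    rw [e1]
    linarith

theorem PHI : PhiStmt.{u, v} := by
  intro G Y _ _ _ _ _ hR C J _ Δ Δ2 φ k k' h1 h2 h3 h4
  have key : ∀ i j : ℕ, dist (C.cen j * (k'⁻¹ * k)) (C.cen i) =
      dist (C.cen j * k'⁻¹) (C.cen i * k⁻¹) := by
    intro i j
    rw [← hR (C.cen j * k'⁻¹) (C.cen i * k⁻¹) k, inv_mul_cancel_right, mul_assoc]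
  refine ⟨?_, ?_⟩
  · intro i j i' j' r s r' s' hr hs hr' hs' hd hd'
    rw [key] at hd hd'
    obtain ⟨Z, z1, z2⟩ := interp hR C.toFrame j i s r hs hr k'⁻¹ k⁻¹ hd
    obtain ⟨Z', z3, z4⟩ := interp hR C.toFrame i' j' r' s' hr' hs' k⁻¹ k'⁻¹
      (by rw [dist_comm]; exact hd')
    simp only [inv_inv] at z2 z4
    exact (h1 _ _ Z Z' z2 z3).trans (h4 _ _ Z Z' z1 z4)
  · intro i j i' j' r s r' s' hr hs hr' hs' hd hd'
    rw [key] at hd hd'
    obtain ⟨Z, z1, z2⟩ := interp hR C.toFrame i j r s hr hs k⁻¹ k'⁻¹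
      (by rw [dist_comm]; exact hd)
    obtain ⟨Z', z3, z4⟩ := interp hR C.toFrame j' i' s' r' hs' hr' k'⁻¹ k⁻¹ hd'
    simp only [inv_inv] at z2 z4
    exact (h3 _ _ Z Z' z2 z3).trans (h2 _ _ Z Z' z1 z4)

end Pool.Agent.H16.HV
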