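import Pool.Agent.H16.HV.WM0

/-!
# HV module WM: labelled posets over every well-order, from the model existence game
-/

set_option autoImplicit false

open Set Topology TopologicalSpace Filter

namespace Pool.Agent.H16.HV.WM

open Pool.Agent.H71.HV

universe u v

/-- facts -/
inductive Fact (κ : Type) where
  | neg (V k : ℕ) : Fact κ
  | lab (V W : ℕ) (l : Lab κ) : Fact κ
  | wit (V W V' : ℕ) (ξ : κ) : Fact κ
  | rob (D : RD) (ξ : κ) : Fact κ

/-- labels of `κ` mentioned by a fact -/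
def Fact.labs {κ : Type} : Fact κ → Set κ
  | .neg _ _ => ∅
  | .lab _ _ l => {ξ | l = lb ξ}
  | .wit _ _ _ ξ => {ξ}
  | .rob _ ξ => {ξ}

/-- positions -/
abbrev Pos (κ : Type) := List ℕ × List (Fact κ)

/-- labels mentioned in a position -/
def labsP {κ : Type} (p : Pos κ) : Set κ := {ξ | ∃ φ ∈ p.2, ξ ∈ φ.labs}

/-- challenges -/
inductive Ch (κ : Type) where
  | len (n : ℕ) : Ch κ
  | dec0 (V k : ℕ) : Ch κ
  | lab (V W : ℕ) : Ch κ
  | up (V W V' : ℕ) (η : κ) : Ch κ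
  | down (V W : ℕ) : Ch κ
  | bot (V W : ℕ) : Ch κ
  | rob (ξ : κ) : Ch κ

/-- labels mentioned by a challenge -/
def Ch.cl {κ : Type} : Ch κ → Set κ
  | .up _ _ _ η => {η}
  | .rob ξ => {ξ}
  | _ => ∅

/-- extension of positions -/
def ext {κ : Type} (p q : Pos κ) : Prop := p.1 <+: q.1 ∧ p.2 ⊆ q.2

theorem ext_refl {κ : Type} (p : Pos κ) : ext p p := ⟨List.prefix_rfl, fun _ h => h⟩

theorem ext_trans {κ : Type} {p q r : Pos κ} (h1 : ext p q) (h2 : ext q r) : ext p r :=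
  ⟨h1.1.trans h2.1, fun _ h => h2.2 (h1.2 h)⟩

section ctbl

instance : Countable RD := by
  have h : Function.Injective (fun D : RD => (D.i, D.j, D.r, D.r1, D.s, D.e)) := by
    rintro ⟨i, j, r, r1, s, e⟩ ⟨i', j', r', r1', s', e'⟩ h
    simp only [Prod.mk.injEq] at h
    obtain ⟨rfl, rfl, rfl, rfl, rfl, rfl⟩ := h
    rfl
  exact h.countable

theorem lab_cases {κ : Type} (l : Lab κ) : l = ⊥ ∨ l = ((⊤ : WithTop κ) : WithBot (WithTop κ)) ∨
    ∃ ξ : κ, l = lb ξ := by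
  induction l using WithBot.recBotCoe with
  | bot => exact Or.inl rfl
  | coe l =>
    induction l using WithTop.recTopCoe with
    | top => exact Or.inr (Or.inl rfl)
    | coe ξ => exact Or.inr (Or.inr ⟨ξ, rfl⟩)

theorem lb_inj {κ : Type} {ξ η : κ} (h : lb ξ = lb η) : ξ = η := by
  unfold lb at h
  rwa [WithBot.coe_inj, WithTop.coe_inj] at h

theorem labs_finite {κ : Type} (φ : Fact κ) : φ.labs.Finite := by
  cases φ with
  | neg V k => exact Set.finite_empty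
  | lab V W l =>
    apply Set.Subsingleton.finite
    intro a ha b hb
    exact lb_inj (ha.symm.trans hb)
  | wit V W V' ξ => exact Set.finite_singleton _
  | rob D ξ => exact Set.finite_singleton _

theorem labsP_finite {κ : Type} (p : Pos κ) : (labsP p).Finite := by
  have : labsP p = ⋃ φ ∈ {φ | φ ∈ p.2}, φ.labs := by
    ext ξ
    simp [labsP]
  rw [this]
  exact Set.Finite.biUnion (List.finite_toSet p.2) fun φ _ => labs_finite φ

theorem cl_countable {κ : Type} (c : Ch κ) : c.cl.Countable := by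
  cases c <;> first
    | exact Set.countable_empty
    | exact Set.countable_singleton _

theorem facts_countable {κ : Type} {H : Set κ} (hH : H.Countable) :
    {φ : Fact κ | φ.labs ⊆ H}.Countable := by
  have : Countable H := hH.to_subtype
  have h : {φ : Fact κ | φ.labs ⊆ H} ⊆
      range (fun t : ℕ × ℕ => (Fact.neg t.1 t.2 : Fact κ)) ∪
      (range (fun t : ℕ × ℕ => (Fact.lab t.1 t.2 ⊥ : Fact κ)) ∪
      (range (fun t : ℕ × ℕ =>
        (Fact.lab t.1 t.2 ((⊤ : WithTop κ) : WithBot (WithTop κ)) : Fact κ)) ∪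
      (range (fun t : ℕ × ℕ × H => (Fact.lab t.1 t.2.1 (lb t.2.2.1) : Fact κ)) ∪
      (range (fun t : ℕ × ℕ × ℕ × H => (Fact.wit t.1 t.2.1 t.2.2.1 t.2.2.2.1 : Fact κ)) ∪
      range (fun t : RD × H => (Fact.rob t.1 t.2.1 : Fact κ)))))) := by
    intro φ hφ
    cases φ with
    | neg V k => exact Or.inl ⟨(V, k), rfl⟩
    | lab V W l =>
      rcases lab_cases l with rfl | rfl | ⟨ξ, rfl⟩
      · exact Or.inr (Or.inl ⟨(V, W), rfl⟩)
      · exact Or.inr (Or.inr (Or.inl ⟨(V, W), rfl⟩))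
      · have hξ : ξ ∈ H := hφ (show ξ ∈ (Fact.lab V W (lb ξ)).labs from rfl)
        exact Or.inr (Or.inr (Or.inr (Or.inl ⟨(V, W, ⟨ξ, hξ⟩), rfl⟩)))
    | wit V W V' ξ =>
      have hξ : ξ ∈ H := hφ (show ξ ∈ (Fact.wit V W V' ξ).labs from rfl)
      exact Or.inr (Or.inr (Or.inr (Or.inr (Or.inl ⟨(V, W, V', ⟨ξ, hξ⟩), rfl⟩))))
    | rob D ξ =>
      have hξ : ξ ∈ H := hφ (show ξ ∈ (Fact.rob D ξ).labs from rfl)
      exact Or.inr (Or.inr (Or.inr (Or.inr (Or.inr ⟨(D, ⟨ξ, hξ⟩), rfl⟩))))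
  refine Set.Countable.mono h ?_
  exact (countable_range _).union ((countable_range _).union ((countable_range _).union
    ((countable_range _).union ((countable_range _).union (countable_range _)))))

theorem pos_countable {κ : Type} {H : Set κ} (hH : H.Countable) :
    {p : Pos κ | labsP p ⊆ H}.Countable := by
  have hF := facts_countable hH
  have : Countable {φ : Fact κ | φ.labs ⊆ H} := hF.to_subtype
  have hL : {l : List (Fact κ) | ∀ φ ∈ l, φ ∈ {φ : Fact κ | φ.labs ⊆ H}}.Countable := by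
    rw [← Set.range_list_map_coe]
    exact countable_range _
  refine Set.Countable.mono ?_ ((Set.countable_univ (α := List ℕ)).prod hL)
  intro p hp
  refine ⟨Set.mem_univ _, ?_⟩
  intro φ hφ ξ hξ
  exact hp ⟨φ, hφ, hξ⟩

end ctbl

section pre

variable {G : Type u} {Y : Type v} [Group G] [MetricSpace G] [TopologicalSpace Y] [MulAction G Y]

theorem pre_range (z : ℕ → ℕ) (M : ℕ) : Pre ((List.range M).map z) z := by
  intro i h
  simp

theorem prefix_range {s : List ℕ} {z : ℕ → ℕ} (h : Pre s z) {M : ℕ} (hM : s.length ≤ M) :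
    s <+: (List.range M).map z := by
  rw [List.prefix_iff_getElem]
  refine ⟨by simpa using hM, fun i hi => ?_⟩
  rw [h i hi]
  simp

theorem exists_forces [ContinuousConstSMul G Y] (C : Ctx G Y) {z : ℕ → ℕ} {V k : ℕ}
    (h : C.Hit (C.f z) V k) : ∃ N, ∀ M, N ≤ M → C.Forces ((List.range M).map z) V k := by
  have hO : IsOpen (C.f ⁻¹' {x : Y | C.Hit x V k}) := (C.isOpen_hit V k).preimage C.cont
  obtain ⟨I, u, h1, h2⟩ := isOpen_pi_iff.mp hO z h
  refine ⟨I.sup id + 1, fun M hM z' hz' => ?_⟩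
  apply h2
  intro a ha
  have ha' : a ≤ I.sup id := Finset.le_sup (f := id) ha
  have hl : a < ((List.range M).map z).length := by
    simp
    omega
  have := hz' a hl
  simp at this
  rw [← this]
  exact (h1 a ha).2

end pre

section game

variable {G : Type u} {Y : Type v} [Group G] [MetricSpace G] [TopologicalSpace Y] [MulAction G Y]
variable {κ : Type} [LinearOrder κ] [WellFoundedLT κ]

/-- answers -/
def ans (C : Ctx G Y) (c : Ch κ) (p q : Pos κ) : Prop :=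
  ext p q ∧ match c with
  | .len n => n ≤ q.1.length
  | .dec0 V k => C.Forces q.1 V k ∨ Fact.neg V k ∈ q.2
  | .lab V W => ∃ l, Fact.lab V W l ∈ q.2
  | .up V W V' η => ∀ l, Fact.lab V W l ∈ p.2 → lb η < l → C.B V' ⊆ C.B V →
      ∃ W', C.B W' ⊆ C.B W ∧ ∃ m, Fact.lab W' V' m ∈ q.2 ∧ lb η ≤ m
  | .down V W => ∀ ξ, Fact.lab V W (lb ξ) ∈ p.2 → ∃ V', C.B V' ⊆ C.B V ∧ Fact.wit V W V' ξ ∈ q.2
  | .bot V W => Fact.lab V W ⊥ ∈ p.2 → ∃ k, C.Forces q.1 V k ∧ Fact.neg W k ∈ q.2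
  | .rob ξ => ∃ D : RD, D.Valid ∧ Fact.rob D ξ ∈ q.2

/-- truth of a fact at the point `f z` with the label set `H` -/
def Holds (C : Ctx G Y) (z : ℕ → ℕ) (H : Set κ) : Fact κ → Prop
  | .neg V k => ¬ C.Hit (C.f z) V k
  | .lab V W l => Del C (C.f z) H V W = l
  | .wit V W V' ξ => ξ ∈ H ∧ C.B V' ⊆ C.B V ∧
      ∀ W', C.B W' ⊆ C.B W → Del C (C.f z) H W' V' < lb ξ
  | .rob D ξ => ξ ∈ H ∧ D.Valid ∧
      (∀ e : ℚ, 0 < e → lb ξ ≤ Del C (C.f z) H (C.bt D.i D.r) (C.bt D.j (D.s + e))) ∧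
      Del C (C.f z) H (C.bt D.i D.r1) (C.bt D.j (D.s + D.e)) ≤ lb ξ

/-- truth of a position -/
def tr (C : Ctx G Y) (m : (ℕ → ℕ) × Set κ) (p : Pos κ) : Prop :=
  m.2.Countable ∧ (∀ ξ ∈ m.2, ¬ C.Stb (rho m.2 ξ) (C.f m.1)) ∧ Pre p.1 m.1 ∧
    ∀ φ ∈ p.2, Holds C m.1 m.2 φ

theorem holds_labs {C : Ctx G Y} {z : ℕ → ℕ} {H : Set κ} {φ : Fact κ} (h : Holds C z H φ) :
    φ.labs ⊆ H := by
  cases φ with
  | neg V k => exact Set.empty_subset _
  | lab V W l =>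
    intro ξ hξ
    have h1 : Del C (C.f z) H V W = l := h
    have h2 : l = lb ξ := hξ
    exact (del_eq (h1.trans h2)).1
  | wit V W V' ξ =>
    rintro η rfl
    exact h.1
  | rob D ξ =>
    rintro η rfl
    exact h.1

theorem tr_ext {C : Ctx G Y} {m : (ℕ → ℕ) × Set κ} {p : Pos κ} (h : tr C m p) (N : ℕ)
    (F : List (Fact κ)) (hF : ∀ φ ∈ F, Holds C m.1 m.2 φ) :
    ∃ M, N ≤ M ∧ ext p ((List.range M).map m.1, p.2 ++ F) ∧
      tr C m ((List.range M).map m.1, p.2 ++ F) := by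
  obtain ⟨h1, h2, h3, h4⟩ := h
  refine ⟨max N p.1.length, le_max_left _ _, ⟨prefix_range h3 (le_max_right _ _),
    fun φ hφ => List.mem_append_left _ hφ⟩, h1, h2, pre_range _ _, ?_⟩
  intro φ hφ
  rcases List.mem_append.mp hφ with hφ | hφ
  · exact h4 φ hφ
  · exact hF φ hφ

theorem answer (hRob : RobStmt.{u, v}) [ContinuousConstSMul G Y] (C : Ctx G Y)
    (m : (ℕ → ℕ) × Set κ) (p : Pos κ) (c : Ch κ) (h : tr C m p) (hc : c.cl ⊆ m.2) :
    ∃ q, ans C c p q ∧ tr C m q := by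
  have h4 := h.2.2.2
  cases c with
  | len n =>
    obtain ⟨M, h5, h6, h7⟩ := tr_ext h n [] (by simp)
    exact ⟨_, ⟨h6, by simpa using h5⟩, h7⟩
  | dec0 V k =>
    by_cases hh : C.Hit (C.f m.1) V k
    · obtain ⟨N, hN⟩ := exists_forces C hh
      obtain ⟨M, h5, h6, h7⟩ := tr_ext h N [] (by simp)
      exact ⟨_, ⟨h6, Or.inl (hN M h5)⟩, h7⟩
    · obtain ⟨M, h5, h6, h7⟩ := tr_ext h 0 [Fact.neg V k] (by
        intro φ hφ
        rw [List.mem_singleton] at hφ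
        subst hφ
        exact hh)
      exact ⟨_, ⟨h6, Or.inr (by simp)⟩, h7⟩
  | lab V W =>
    obtain ⟨M, h5, h6, h7⟩ := tr_ext h 0 [Fact.lab V W (Del C (C.f m.1) m.2 V W)] (by
      intro φ hφ
      rw [List.mem_singleton] at hφ
      subst hφ
      exact rfl)
    exact ⟨_, ⟨h6, _, List.mem_append_right _ (List.mem_singleton_self _)⟩, h7⟩
  | up V W V' η =>
    have hη : η ∈ m.2 := hc rfl
    by_cases hyp : lb η < Del C (C.f m.1) m.2 V W ∧ C.B V' ⊆ C.B V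
    · have h8 := lt_del hη hyp.1
      obtain ⟨W', hW', h9⟩ := h8.step (β := rho m.2 η) (by simp) hyp.2
      obtain ⟨M, h5, h6, h7⟩ := tr_ext h 0 [Fact.lab W' V' (Del C (C.f m.1) m.2 W' V')] (by
        intro φ hφ
        rw [List.mem_singleton] at hφ
        subst hφ
        exact rfl)
      refine ⟨_, ⟨h6, ?_⟩, h7⟩
      intro l hl h10 h11
      refine ⟨W', hW', _, List.mem_append_right _ (List.mem_singleton_self _), ?_⟩
      refine le_del h9.hit fun η' hη' hlt => h9.level (rho_lt hη' hlt)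
    · refine ⟨p, ⟨ext_refl p, ?_⟩, h⟩
      intro l hl h10 h11
      have h12 : Del C (C.f m.1) m.2 V W = l := h4 _ hl
      exact absurd ⟨by rw [h12]; exact h10, h11⟩ hyp
  | down V W =>
    by_cases hyp : ∃ ξ : κ, Del C (C.f m.1) m.2 V W = lb ξ
    · obtain ⟨ξ, hξ⟩ := hyp
      obtain ⟨h8, h9, h10⟩ := del_eq hξ
      have h11 : ∃ V', C.B V' ⊆ C.B V ∧ ∀ W', C.B W' ⊆ C.B W →
          ¬ C.Le (rho m.2 ξ) (C.f m.1) W' (C.f m.1) V' := by
        by_contra hcon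
        push Not at hcon
        apply h10
        rw [Ctx.le_iff]
        refine ⟨h9, fun β hβ V' hV' => ?_⟩
        obtain ⟨W', h12, h13⟩ := hcon V' hV'
        exact ⟨W', h12, h13.level (Order.lt_add_one_iff.mp hβ)⟩
      obtain ⟨V', hV', h12⟩ := h11
      obtain ⟨M, h5, h6, h7⟩ := tr_ext h 0 [Fact.wit V W V' ξ] (by
        intro φ hφ
        rw [List.mem_singleton] at hφ
        subst hφ
        exact ⟨h8, hV', fun W' hW' => del_lt (h12 W' hW')⟩)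
      refine ⟨_, ⟨h6, ?_⟩, h7⟩
      intro ξ' hξ'
      have h13 : Del C (C.f m.1) m.2 V W = lb ξ' := h4 _ hξ'
      have h14 : ξ = ξ' := lb_inj (hξ.symm.trans h13)
      subst h14
      exact ⟨V', hV', List.mem_append_right _ (List.mem_singleton_self _)⟩
    · refine ⟨p, ⟨ext_refl p, ?_⟩, h⟩
      intro ξ hξ
      exact absurd ⟨ξ, h4 _ hξ⟩ hyp
  | bot V W =>
    by_cases hyp : Del C (C.f m.1) m.2 V W = ⊥
    · have h8 := del_eq_bot.mp hyp
      push Not at h8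
      obtain ⟨k, h9, h10⟩ := h8
      obtain ⟨N, hN⟩ := exists_forces C h9
      obtain ⟨M, h5, h6, h7⟩ := tr_ext h N [Fact.neg W k] (by
        intro φ hφ
        rw [List.mem_singleton] at hφ
        subst hφ
        exact h10)
      exact ⟨_, ⟨h6, fun _ => ⟨k, hN M h5, List.mem_append_right _ (List.mem_singleton_self _)⟩⟩,
        h7⟩
    · exact ⟨p, ⟨ext_refl p, fun hb => absurd (h4 _ hb) hyp⟩, h⟩
  | rob ξ =>
    have hξ : ξ ∈ m.2 := hc rfl
    obtain ⟨D, hD, h8, h9⟩ := hRob G Y C (C.f m.1) (rho m.2 ξ) (h.2.1 ξ hξ)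
    obtain ⟨M, h5, h6, h7⟩ := tr_ext h 0 [Fact.rob D ξ] (by
      intro φ hφ
      rw [List.mem_singleton] at hφ
      subst hφ
      refine ⟨hξ, hD, fun e he => ?_, del_le hξ h9⟩
      exact le_del (h8 e he).hit fun η' hη' hlt => (h8 e he).level (rho_lt hη' hlt))
    exact ⟨_, ⟨h6, D, hD, List.mem_append_right _ (List.mem_singleton_self _)⟩, h7⟩

end game

section poset

variable {G : Type u} {Y : Type v} [Group G] [MetricSpace G] [TopologicalSpace Y] [MulAction G Y]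
variable {κ : Type} [LinearOrder κ] [WellFoundedLT κ]

/-- the preorder on the strategy set -/
@[instance_reducible] def ordQ (Q : Set (Pos κ)) : Preorder {p // p ∈ Q} where
  le q p := ext p.1 q.1
  le_refl p := ext_refl p.1
  le_trans _ _ _ h1 h2 := ext_trans h2 h1

open Classical in
/-- label function of a position -/
noncomputable def labF (p : Pos κ) (V W : ℕ) : Option (Lab κ) :=
  if h : ∃ l, Fact.lab V W l ∈ p.2 then some h.choose else none

omit [LinearOrder κ] [WellFoundedLT κ] in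
theorem labF_mem {p : Pos κ} {V W : ℕ} {l : Lab κ} (h : labF p V W = some l) :
    Fact.lab V W l ∈ p.2 := by
  unfold labF at h
  split_ifs at h with h1
  have := h1.choose_spec
  rw [Option.some_inj] at h
  rwa [h] at this

theorem labF_of_mem {C : Ctx G Y} {p : Pos κ} {m : (ℕ → ℕ) × Set κ} (hm : tr C m p) {V W : ℕ}
    {l : Lab κ} (h : Fact.lab V W l ∈ p.2) : labF p V W = some l := by
  unfold labF
  have h1 : ∃ l, Fact.lab V W l ∈ p.2 := ⟨l, h⟩
  rw [dif_pos h1]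
  have h2 : Del C (C.f m.1) m.2 V W = h1.choose := hm.2.2.2 _ h1.choose_spec
  have h3 : Del C (C.f m.1) m.2 V W = l := hm.2.2.2 _ h
  rw [← h2, h3]

theorem labF_del {C : Ctx G Y} {p : Pos κ} {m : (ℕ → ℕ) × Set κ} (hm : tr C m p) {V W : ℕ}
    {l : Lab κ} (h : labF p V W = some l) : Del C (C.f m.1) m.2 V W = l :=
  hm.2.2.2 _ (labF_mem h)

/-- the stem structure -/
def stemQ (C : Ctx G Y) (Q : Set (Pos κ)) (hQ : ∀ p ∈ Q, ∀ c : Ch κ, ∃ q ∈ Q, ans C c p q) :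
    @Stem {p // p ∈ Q} (ordQ Q) :=
  letI := ordQ Q
  { stem := fun p => p.1.1
    stem_mono := fun h => h.1
    stem_ext := fun p n => by
      obtain ⟨q, hq, h1, h2⟩ := hQ p.1 p.2 (.len n)
      exact ⟨⟨q, hq⟩, h1, h2⟩ }

theorem neg_of (C : Ctx G Y) (Q : Set (Pos κ))
    (hQ : ∀ p ∈ Q, ∀ c : Ch κ, ∃ q ∈ Q, ans C c p q)
    (hT : ∀ p ∈ Q, ∃ m, tr C m p) (q : {p // p ∈ Q}) (W k : ℕ) (h : Fact.neg W k ∈ q.1.2) :
    @Ctx.Neg G Y _ _ _ _ C _ (ordQ Q) (stemQ C Q hQ) q W k := by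
  intro r hr hf
  obtain ⟨m, hm⟩ := hT r.1 r.2
  have h1 : ¬ C.Hit (C.f m.1) W k := hm.2.2.2 _ (hr.2 h)
  exact h1 (hf m.1 hm.2.2.1)

theorem mkLP (C : Ctx G Y) (Q : Set (Pos κ))
    (hQ : ∀ p ∈ Q, ∀ c : Ch κ, ∃ q ∈ Q, ans C c p q)
    (hT : ∀ p ∈ Q, ∃ m, tr C m p) : Nonempty (@LP G Y _ _ _ _ C κ _ {p // p ∈ Q} (ordQ Q)) := by
  let _ := ordQ Q
  refine ⟨{
    toStem := stemQ C Q hQ
    lab := fun p => labF p.1
    lab_mono := ?_
    dec := ?_
    up := ?_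
    down := ?_
    bot := ?_
    nbot := ?_
    lmono := ?_
    rob := ?_ }⟩
  · intro p q hqp V W l h
    obtain ⟨m, hm⟩ := hT q.1 q.2
    exact labF_of_mem hm (hqp.2 (labF_mem h))
  · intro p V W
    obtain ⟨q, hq, h1, l, h2⟩ := hQ p.1 p.2 (.lab V W)
    obtain ⟨m, hm⟩ := hT q hq
    exact ⟨⟨q, hq⟩, h1, l, labF_of_mem hm h2⟩
  · intro p V W l η h1 h2 V' hV'
    obtain ⟨q, hq, h3, h4⟩ := hQ p.1 p.2 (.up V W V' η)
    obtain ⟨W', hW', m', h5, h6⟩ := h4 l (labF_mem h1) h2 hV'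
    obtain ⟨m, hm⟩ := hT q hq
    exact ⟨⟨q, hq⟩, h3, W', hW', m', labF_of_mem hm h5, h6⟩
  · intro p V W ξ h1
    obtain ⟨q, hq, h3, h4⟩ := hQ p.1 p.2 (.down V W)
    obtain ⟨V', hV', h5⟩ := h4 ξ (labF_mem h1)
    refine ⟨⟨q, hq⟩, h3, V', hV', ?_⟩
    intro r hr W' hW' l hl
    obtain ⟨m, hm⟩ := hT r.1 r.2
    have h6 : ξ ∈ m.2 ∧ C.B V' ⊆ C.B V ∧
      ∀ W', C.B W' ⊆ C.B W → Del C (C.f m.1) m.2 W' V' < lb ξ := hm.2.2.2 _ (hr.2 h5)
    have h7 := h6.2.2 W' hW'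
    rwa [labF_del hm hl] at h7
  · intro p V W h1
    obtain ⟨q, hq, h3, h4⟩ := hQ p.1 p.2 (.bot V W)
    obtain ⟨k, h5, h6⟩ := h4 (labF_mem h1)
    exact ⟨⟨q, hq⟩, h3, k, h5, neg_of C Q hQ hT ⟨q, hq⟩ W k h6⟩
  · intro p V W l k h1 h2 h3 h4
    obtain ⟨q, hq, h5, h6⟩ := hQ p.1 p.2 (.dec0 W k)
    rcases h6 with h6 | h6
    · exact h3 ⟨q, hq⟩ h5 h6
    · obtain ⟨m, hm⟩ := hT q hq
      have h7 : ¬ C.Hit (C.f m.1) W k := hm.2.2.2 _ h6
      have h8 : Del C (C.f m.1) m.2 V W = l := hm.2.2.2 _ (h5.2 (labF_mem h1))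
      have h9 := lt_del_hit (C := C) (x := C.f m.1) (H := m.2) (V := V) (W := W) (by rw [h8]; exact h2)
      apply h7
      apply h9
      exact (h4.mono_stem h5.1) m.1 hm.2.2.1
  · intro p V W V' W' l l' hV hW h1 h2
    obtain ⟨m, hm⟩ := hT p.1 p.2
    rw [← labF_del hm h1, ← labF_del hm h2]
    exact del_mono hV hW
  · intro p ξ
    obtain ⟨q, hq, h3, D, hD, h4⟩ := hQ p.1 p.2 (.rob ξ)
    refine ⟨⟨q, hq⟩, h3, D, hD, ?_⟩
    intro r hr
    obtain ⟨m, hm⟩ := hT r.1 r.2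
    have h6 : ξ ∈ m.2 ∧ D.Valid ∧
      (∀ e : ℚ, 0 < e → lb ξ ≤ Del C (C.f m.1) m.2 (C.bt D.i D.r) (C.bt D.j (D.s + e))) ∧
      Del C (C.f m.1) m.2 (C.bt D.i D.r1) (C.bt D.j (D.s + D.e)) ≤ lb ξ :=
      hm.2.2.2 _ (hr.2 h4)
    refine ⟨fun e he l hl => ?_, fun l hl => ?_⟩
    · rw [← labF_del hm hl]
      exact h6.2.2.1 e he
    · rw [← labF_del hm hl]
      exact h6.2.2.2

end poset

/-- WM from GAME, RK -/
theorem wm_asm : WMAsmStmt.{u, v} := by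
  intro hGame hMono hRob G Y _ _ _ _ _ C hC κ _ _
  have h6 : ∀ H : Set κ, H.Countable →
      ∃ m : (ℕ → ℕ) × Set κ, m.2 = H ∧ tr C m (([], []) : Pos κ) := by
    intro H hH
    obtain ⟨θ, h4, h5⟩ := rho_bound hH
    obtain ⟨z, hz⟩ := hC θ h4
    refine ⟨(z, H), rfl, hH, fun ξ hξ hS => hz (hMono G Y C (C.f z) _ _ (h5 ξ hξ) hS), ?_, ?_⟩
    · intro i hi
      simp at hi
    · intro φ hφ
      simp at hφ
  have h7 : ∀ (m : (ℕ → ℕ) × Set κ) (p : Pos κ), tr C m p → labsP p ⊆ m.2 := by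
    rintro m p h ξ ⟨φ, hφ, hξ⟩
    exact holds_labs (h.2.2.2 φ hφ) hξ
  obtain ⟨Q, h1, h2, h3⟩ := hGame κ (Pos κ) (Ch κ) ((ℕ → ℕ) × Set κ) labsP Ch.cl (ans C)
    Prod.snd (tr C) ([], []) labsP_finite cl_countable (fun H hH => pos_countable hH) h6 h7
    (fun m p c h hc => answer hRob C m p c h hc)
  exact ⟨{p // p ∈ Q}, ordQ Q, ⟨⟨_, h1⟩⟩, mkLP C Q h3 h2⟩

end Pool.Agent.H16.HV.WM
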