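import Pool.Agent.H71.HV.Targets2
import Pool.Agent.H71.HV.Basic

/-!
# HV module WM, part 0: labels computed from a point
-/

set_option autoImplicit false

open Set Topology TopologicalSpace Filter

namespace Pool.Agent.H16.HV.WM

open Pool.Agent.H71.HV

universe u v

section rho

variable {κ : Type} [LinearOrder κ] [WellFoundedLT κ]

/-- `rho H ξ = sup {rho H η + 1 : η ∈ H, η < ξ}` -/
noncomputable def rho (H : Set κ) : κ → Ordinal.{0} :=
  (wellFounded_lt (α := κ)).fix fun ξ ih => ⨆ η : {η : κ // η ∈ H ∧ η < ξ}, (ih η.1 η.2.2 + 1)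

theorem rho_eq (H : Set κ) (ξ : κ) :
    rho H ξ = ⨆ η : {η : κ // η ∈ H ∧ η < ξ}, (rho H η.1 + 1) := by
  unfold rho
  rw [WellFounded.fix_eq]

theorem rho_lt {H : Set κ} {η ξ : κ} (hη : η ∈ H) (h : η < ξ) : rho H η + 1 ≤ rho H ξ := by
  rw [rho_eq H ξ]
  exact Ordinal.le_iSup (fun η : {η : κ // η ∈ H ∧ η < ξ} => rho H η.1 + 1) ⟨η, hη, h⟩

theorem lt_rho {H : Set κ} {ξ : κ} {β : Ordinal.{0}} (h : β < rho H ξ) :
    ∃ η ∈ H, η < ξ ∧ β < rho H η + 1 := by
  rw [rho_eq H ξ, Ordinal.lt_iSup_iff] at h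
  obtain ⟨⟨η, h1, h2⟩, h3⟩ := h
  exact ⟨η, h1, h2, h3⟩

theorem rho_ctbl {H : Set κ} (hH : H.Countable) (ξ : κ) : rho H ξ < Ordinal.omega 1 := by
  induction ξ using WellFoundedLT.induction with
  | _ ξ ih =>
    rw [rho_eq H ξ]
    have : Countable {η : κ // η ∈ H ∧ η < ξ} := (hH.mono fun x hx => hx.1).to_subtype
    refine Ordinal.iSup_lt_omega_one fun η => ?_
    exact (Cardinal.isSuccLimit_omega 1).add_one_lt (ih η.1 η.2.2)

theorem rho_bound {H : Set κ} (hH : H.Countable) :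
    ∃ θ : Ordinal.{0}, θ.card ≤ Cardinal.aleph0 ∧ ∀ ξ ∈ H, rho H ξ ≤ θ := by
  have : Countable H := hH.to_subtype
  refine ⟨⨆ ξ : H, rho H ξ.1, ?_, fun ξ hξ => Ordinal.le_iSup (fun ξ : H => rho H ξ.1) ⟨ξ, hξ⟩⟩
  have h : (⨆ ξ : H, rho H ξ.1) < Ordinal.omega 1 :=
    Ordinal.iSup_lt_omega_one fun ξ => rho_ctbl hH ξ.1
  rw [← Cardinal.ord_aleph, Cardinal.lt_ord] at h
  have h1 : Cardinal.aleph 1 = Order.succ Cardinal.aleph0 := by
    rw [Cardinal.succ_aleph0]
  rw [h1] at h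
  exact Order.lt_succ_iff.mp h

end rho

section del

variable {G : Type u} {Y : Type v} [Group G] [MetricSpace G] [TopologicalSpace Y] [MulAction G Y]
variable {κ : Type} [LinearOrder κ] [WellFoundedLT κ]

open Classical in
/-- the label of the pair `(V, W)` at the point `x` -/
noncomputable def Del (C : Ctx G Y) (x : Y) (H : Set κ) (V W : ℕ) : Lab κ :=
  if ∀ k, C.Hit x V k → C.Hit x W k then
    if h : {ξ | ξ ∈ H ∧ ¬ C.Le (rho H ξ + 1) x V x W}.Nonempty then
      lb (WellFounded.min (wellFounded_lt (α := κ)) _ h)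
    else ⊤
  else ⊥

variable {C : Ctx G Y} {x : Y} {H : Set κ}

theorem del_eq_bot {V W : ℕ} : Del C x H V W = ⊥ ↔ ¬ ∀ k, C.Hit x V k → C.Hit x W k := by
  unfold Del
  by_cases h : ∀ k, C.Hit x V k → C.Hit x W k
  · rw [if_pos h]
    refine ⟨fun h' => ?_, fun h' => absurd h h'⟩
    split_ifs at h' with h2
    · exact absurd h' (by unfold lb; exact WithBot.coe_ne_bot)
    · exact absurd h' (by exact WithBot.coe_ne_bot)
  · rw [if_neg h]
    exact ⟨fun _ => h, fun _ => rfl⟩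

theorem le_del {V W : ℕ} {ξ : κ} (h0 : ∀ k, C.Hit x V k → C.Hit x W k)
    (h : ∀ η ∈ H, η < ξ → C.Le (rho H η + 1) x V x W) : lb ξ ≤ Del C x H V W := by
  unfold Del
  rw [if_pos h0]
  split_ifs with h2
  · have h3 := WellFounded.min_mem (wellFounded_lt (α := κ)) _ h2
    unfold lb
    rw [WithBot.coe_le_coe, WithTop.coe_le_coe]
    by_contra hlt
    push Not at hlt
    exact h3.2 (h _ h3.1 hlt)
  · exact WithBot.coe_le_coe.mpr le_top

theorem del_le {V W : ℕ} {ξ : κ} (hξ : ξ ∈ H) (h : ¬ C.Le (rho H ξ + 1) x V x W) :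
    Del C x H V W ≤ lb ξ := by
  unfold Del
  by_cases h0 : ∀ k, C.Hit x V k → C.Hit x W k
  · rw [if_pos h0, dif_pos ⟨ξ, hξ, h⟩]
    unfold lb
    rw [WithBot.coe_le_coe, WithTop.coe_le_coe]
    exact WellFounded.min_le _ (show ξ ∈ {ξ | ξ ∈ H ∧ ¬ C.Le (rho H ξ + 1) x V x W} from ⟨hξ, h⟩)
  · rw [if_neg h0]
    exact bot_le

theorem lt_del {V W : ℕ} {η : κ} (hη : η ∈ H) (h : lb η < Del C x H V W) :
    C.Le (rho H η + 1) x V x W := by
  by_contra hc
  exact absurd (del_le hη hc) (not_le.mpr h)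

theorem lt_del_hit {V W : ℕ} (h : Del C x H V W ≠ ⊥) :
    ∀ k, C.Hit x V k → C.Hit x W k := by
  by_contra hc
  exact h (del_eq_bot.mpr hc)

theorem del_eq {V W : ℕ} {ξ : κ} (h : Del C x H V W = lb ξ) :
    ξ ∈ H ∧ (∀ k, C.Hit x V k → C.Hit x W k) ∧ ¬ C.Le (rho H ξ + 1) x V x W := by
  have h0 : ∀ k, C.Hit x V k → C.Hit x W k := by
    apply lt_del_hit (H := H)
    rw [h]
    unfold lb
    exact WithBot.coe_ne_bot
  unfold Del at h
  rw [if_pos h0] at h
  split_ifs at h with h2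
  · have h3 := WellFounded.min_mem (wellFounded_lt (α := κ)) _ h2
    unfold lb at h
    rw [WithBot.coe_inj, WithTop.coe_inj] at h
    rw [h] at h3
    exact ⟨h3.1, h0, h3.2⟩
  · unfold lb at h
    have h4 := WithBot.coe_inj.mp h
    exact absurd h4 (WithTop.top_ne_coe)

theorem del_lt {V W : ℕ} {ξ : κ} (h : ¬ C.Le (rho H ξ) x V x W) :
    Del C x H V W < lb ξ := by
  by_cases h0 : ∀ k, C.Hit x V k → C.Hit x W k
  · have : ∃ η ∈ H, η < ξ ∧ ¬ C.Le (rho H η + 1) x V x W := by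
      by_contra hc
      push Not at hc
      apply h
      rw [Ctx.le_iff]
      refine ⟨h0, fun β hβ V' hV' => ?_⟩
      obtain ⟨η, h1, h2, h3⟩ := lt_rho hβ
      exact (hc η h1 h2).step h3 hV'
    obtain ⟨η, h1, h2, h3⟩ := this
    refine lt_of_le_of_lt (del_le h1 h3) ?_
    unfold lb
    rw [WithBot.coe_lt_coe, WithTop.coe_lt_coe]
    exact h2
  · rw [del_eq_bot.mpr h0]
    exact WithBot.bot_lt_coe _

theorem del_mono {V W V' W' : ℕ} (hV : C.B V' ⊆ C.B V) (hW : C.B W ⊆ C.B W') :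
    Del C x H V W ≤ Del C x H V' W' := by
  by_cases h0 : ∀ k, C.Hit x V k → C.Hit x W k
  · have h0' : ∀ k, C.Hit x V' k → C.Hit x W' k := fun k hk =>
      (h0 k (hk.mono hV)).mono hW
    have hD : Del C x H V' W' ≠ ⊥ := fun h => (del_eq_bot.mp h) h0'
    generalize hD' : Del C x H V' W' = D at hD
    induction D using WithBot.recBotCoe with
    | bot => exact absurd rfl hD
    | coe D =>
      induction D using WithTop.recTopCoe with
      | top =>
        generalize Del C x H V W = D2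
        induction D2 using WithBot.recBotCoe with
        | bot => exact bot_le
        | coe D2 => exact WithBot.coe_le_coe.mpr le_top
      | coe ξ =>
        obtain ⟨h1, _, h3⟩ := del_eq (ξ := ξ) hD'
        exact del_le h1 fun hc => h3 (hc.mono hV hW)
  · rw [del_eq_bot.mpr h0]
    exact bot_le

end del

end Pool.Agent.H16.HV.WM
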